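import Pool.Agent.Lib_helper44.G4.Defs

/-! G4 blocks PV, PS: prime sums. -/

namespace Pool.Agent.G4

open Complex MeasureTheory Filter Topology

variable {m : ℕ}

theorem PS_summable_int : Summable fun i : ℤ => 1 / (1 + (i : ℝ) ^ 2) := by
  have h : Summable fun i : ℤ => 1 / (i : ℝ) ^ 2 := Real.summable_one_div_int_pow.2 (by norm_num)
  refine Summable.of_norm_bounded_eventually (g := fun i : ℤ => 1 / (i : ℝ) ^ 2) h ?_
  rw [Filter.eventually_cofinite]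
  apply (Set.finite_singleton (0 : ℤ)).subset
  intro i hi
  by_contra hne
  apply hi
  have hi0 : (i : ℝ) ≠ 0 := by
    intro h0; apply hne; rw [Set.mem_singleton_iff]; exact_mod_cast h0
  rw [Real.norm_of_nonneg (by positivity)]
  apply one_div_le_one_div_of_le (by positivity)
  linarith

theorem PS_near {s t y : ℝ} (h : |s - t| ≤ 1) :
    1 / (1 + (s - y) ^ 2) ≤ 3 * (1 / (1 + (t - y) ^ 2)) := by
  have h1 : 1 + (t - y) ^ 2 ≤ 3 * (1 + (s - y) ^ 2) := by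
    have h2 : (s - t) ^ 2 ≤ 1 := by rw [← sq_abs]; nlinarith [abs_nonneg (s - t)]
    nlinarith [sq_nonneg (s - y + (s - t))]
  rw [mul_one_div, div_le_div_iff₀ (by positivity) (by positivity)]
  linarith

/-- sums over the integers are bounded uniformly in the shift -/
theorem PS_shift (J : Finset ℕ) (y : ℝ) :
    ∑ j ∈ J, 1 / (1 + ((j : ℝ) - y) ^ 2) ≤ 3 * ∑' i : ℤ, 1 / (1 + (i : ℝ) ^ 2) := by
  have h1 : ∀ j ∈ J, 1 / (1 + ((j : ℝ) - y) ^ 2) ≤
      3 * (1 / (1 + (((j : ℤ) - ⌊y⌋ : ℤ) : ℝ) ^ 2)) := by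
    intro j _
    have h2 : |(j : ℝ) - y - (((j : ℤ) - ⌊y⌋ : ℤ) : ℝ)| ≤ 1 := by
      push_cast
      have h3 := Int.floor_le y
      have h4 := Int.lt_floor_add_one y
      rw [abs_le]; constructor <;> linarith
    have h5 := PS_near (y := 0) h2
    simpa only [sub_zero] using h5
  refine (Finset.sum_le_sum h1).trans ?_
  rw [← Finset.mul_sum]
  apply mul_le_mul_of_nonneg_left _ (by norm_num)
  have hinj : Set.InjOn (fun j : ℕ => (j : ℤ) - ⌊y⌋) (J : Set ℕ) := by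
    intro a _ b _ hab
    simp only at hab
    omega
  rw [← Finset.sum_image (s := J) (g := fun j : ℕ => (j : ℤ) - ⌊y⌋)
    (f := fun i : ℤ => 1 / (1 + (i : ℝ) ^ 2)) hinj]
  exact PS_summable_int.sum_le_tsum _ (fun i _ => by positivity)

theorem PS_main (g : ℕ → ℝ) (hg : ∀ n, 0 ≤ g n) (C : ℝ) (hC : 0 ≤ C)
    (h : ∀ x : ℕ, ∑ n ∈ Finset.Icc 1 x, g n ≤ C * x) (T : Finset ℕ) (hT : ∀ n ∈ T, 1 ≤ n) (y : ℝ) :
    ∑ n ∈ T, g n / n / (1 + (Real.log n - y) ^ 2) ≤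
      9 * Real.exp 1 * C * ∑' i : ℤ, 1 / (1 + (i : ℝ) ^ 2) := by
  classical
  set J : Finset ℕ := T.image (fun n : ℕ => ⌊Real.log n⌋₊) with hJ
  have hmap : ∀ n ∈ T, ⌊Real.log n⌋₊ ∈ J := fun n hn => Finset.mem_image_of_mem _ hn
  rw [← Finset.sum_fiberwise_of_maps_to hmap]
  have hblock : ∀ j ∈ J, ∑ n ∈ T.filter (fun n : ℕ => ⌊Real.log n⌋₊ = j),
      g n / n / (1 + (Real.log n - y) ^ 2) ≤ 3 * Real.exp 1 * C * (1 / (1 + ((j : ℝ) - y) ^ 2)) := by
    intro j _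
    have hterm : ∀ n ∈ T.filter (fun n : ℕ => ⌊Real.log n⌋₊ = j),
        g n / n / (1 + (Real.log n - y) ^ 2) ≤
          g n * (Real.exp (-j) * (3 * (1 / (1 + ((j : ℝ) - y) ^ 2)))) := by
      intro n hn
      rw [Finset.mem_filter] at hn
      obtain ⟨hnT, hnj⟩ := hn
      have hn1 : (1 : ℝ) ≤ n := by exact_mod_cast hT n hnT
      have hlog : 0 ≤ Real.log n := Real.log_nonneg hn1
      have h1 : (j : ℝ) ≤ Real.log n := by rw [← hnj]; exact Nat.floor_le hlog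
      have h2 : Real.log n < j + 1 := by rw [← hnj]; exact Nat.lt_floor_add_one _
      have h3 : |Real.log n - (j : ℝ)| ≤ 1 := by rw [abs_le]; constructor <;> linarith
      have h4 := PS_near (y := y) h3
      have h5 : ((n : ℝ))⁻¹ ≤ Real.exp (-j) := by
        rw [Real.exp_neg]
        apply inv_anti₀ (Real.exp_pos _)
        rw [← Real.exp_log (by linarith : (0 : ℝ) < n)]
        exact Real.exp_le_exp.2 h1
      calc g n / n / (1 + (Real.log n - y) ^ 2)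
          = g n * ((n : ℝ)⁻¹ * (1 / (1 + (Real.log n - y) ^ 2))) := by
            rw [div_eq_mul_inv, div_eq_mul_inv, one_div]; ring
        _ ≤ g n * (Real.exp (-j) * (3 * (1 / (1 + ((j : ℝ) - y) ^ 2)))) := by
            apply mul_le_mul_of_nonneg_left _ (hg n)
            exact mul_le_mul h5 h4 (by positivity) (Real.exp_pos _).le
    refine (Finset.sum_le_sum hterm).trans ?_
    rw [← Finset.sum_mul]
    have hsub : T.filter (fun n : ℕ => ⌊Real.log n⌋₊ = j) ⊆ Finset.Icc 1 ⌊Real.exp (j + 1)⌋₊ := by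
      intro n hn
      rw [Finset.mem_filter] at hn
      obtain ⟨hnT, hnj⟩ := hn
      have hn1 : (1 : ℝ) ≤ n := by exact_mod_cast hT n hnT
      rw [Finset.mem_Icc]
      refine ⟨hT n hnT, ?_⟩
      apply Nat.le_floor
      have h2 : Real.log n < j + 1 := by rw [← hnj]; exact Nat.lt_floor_add_one _
      rw [← Real.exp_log (by linarith : (0 : ℝ) < n)]
      exact Real.exp_le_exp.2 h2.le
    have h1 : ∑ n ∈ T.filter (fun n : ℕ => ⌊Real.log n⌋₊ = j), g n ≤ C * Real.exp (j + 1) := by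
      refine (Finset.sum_le_sum_of_subset_of_nonneg hsub (fun n _ _ => hg n)).trans ?_
      refine (h _).trans ?_
      exact mul_le_mul_of_nonneg_left (Nat.floor_le (Real.exp_pos _).le) hC
    calc (∑ n ∈ T.filter (fun n : ℕ => ⌊Real.log n⌋₊ = j), g n) *
          (Real.exp (-j) * (3 * (1 / (1 + ((j : ℝ) - y) ^ 2))))
        ≤ (C * Real.exp (j + 1)) * (Real.exp (-j) * (3 * (1 / (1 + ((j : ℝ) - y) ^ 2)))) := by
          apply mul_le_mul_of_nonneg_right h1 (by positivity)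
      _ = 3 * (Real.exp (j + 1) * Real.exp (-j)) * C * (1 / (1 + ((j : ℝ) - y) ^ 2)) := by ring
      _ = 3 * Real.exp 1 * C * (1 / (1 + ((j : ℝ) - y) ^ 2)) := by
          rw [← Real.exp_add]; congr 4; ring
  refine (Finset.sum_le_sum hblock).trans ?_
  rw [← Finset.mul_sum]
  have h2 := PS_shift J y
  calc 3 * Real.exp 1 * C * ∑ j ∈ J, 1 / (1 + ((j : ℝ) - y) ^ 2)
      ≤ 3 * Real.exp 1 * C * (3 * ∑' i : ℤ, 1 / (1 + (i : ℝ) ^ 2)) := by
        apply mul_le_mul_of_nonneg_left h2 (by positivity)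
    _ = _ := by ring

theorem PS_rs (S : Sys m) : ∃ C : ℝ, 0 ≤ C ∧ ∀ x : ℕ, ∑ n ∈ Finset.Icc 1 x, ‖S.a n‖ ^ 2 ≤ C * x := by
  obtain ⟨C, hC⟩ := S.rs
  refine ⟨C, ?_, hC⟩
  have := hC 1
  simp only [Finset.Icc_self, Finset.sum_singleton, Nat.cast_one, mul_one] at this
  exact (sq_nonneg _).trans this

/-- PS: sums over primes -/
theorem prime_sums_pr (S : Sys m) : ∃ C : ℝ, 0 ≤ C ∧ ∀ P : ℕ,
    (∑ p ∈ Nat.primesBelow (P + 1), ‖S.a p‖ ^ 2 / ((p : ℝ) * (1 + Real.log p) ^ 2) ≤ C) ∧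
    (∀ y : ℝ, ∑ p ∈ Nat.primesBelow (P + 1), ‖S.a p‖ ^ 2 / p / (1 + (Real.log p - y) ^ 2) ≤ C) ∧
    (∀ p : ℕ, p.Prime → ‖S.a p‖ ^ 2 / p ≤ C) := by
  obtain ⟨C, hC0, hC⟩ := PS_rs S
  set Z : ℝ := ∑' i : ℤ, 1 / (1 + (i : ℝ) ^ 2) with hZ
  have hZ0 : 0 ≤ Z := tsum_nonneg fun i => by positivity
  have hmain : ∀ (P : ℕ) (y : ℝ), ∑ p ∈ Nat.primesBelow (P + 1),
      ‖S.a p‖ ^ 2 / p / (1 + (Real.log p - y) ^ 2) ≤ 9 * Real.exp 1 * C * Z := by
    intro P y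
    exact PS_main (fun n => ‖S.a n‖ ^ 2) (fun n => sq_nonneg _) C hC0 hC _
      (fun n hn => (Nat.prime_of_mem_primesBelow hn).one_lt.le) y
  refine ⟨9 * Real.exp 1 * C * Z + C, by positivity, fun P => ⟨?_, ?_, ?_⟩⟩
  · refine le_trans ?_ ((hmain P 0).trans (by linarith))
    apply Finset.sum_le_sum
    intro p hp
    have hpp := Nat.prime_of_mem_primesBelow hp
    have hp1 : (1 : ℝ) ≤ p := by exact_mod_cast hpp.one_lt.le
    have hlog : 0 ≤ Real.log p := Real.log_nonneg hp1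
    rw [div_div]
    apply div_le_div_of_nonneg_left (sq_nonneg _) (by positivity)
    apply mul_le_mul_of_nonneg_left _ (by positivity)
    rw [sub_zero]
    nlinarith
  · intro y
    exact (hmain P y).trans (by linarith)
  · intro p hp
    have hp0 : (0 : ℝ) < p := by exact_mod_cast hp.pos
    have h1 : ‖S.a p‖ ^ 2 ≤ C * p := by
      refine le_trans ?_ (hC p)
      exact Finset.single_le_sum (f := fun n => ‖S.a n‖ ^ 2) (fun n _ => sq_nonneg _)
        (Finset.mem_Icc.2 ⟨hp.one_lt.le, le_rfl⟩)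
    have h2 : ‖S.a p‖ ^ 2 / p ≤ C := by rw [div_le_iff₀ hp0]; exact h1
    have h3 : 0 ≤ 9 * Real.exp 1 * C * Z := by positivity
    linarith

/-- PV -/
theorem vv_large_pr (S : Sys m) (M : ℝ) : ∃ η₀ : ℝ, 0 < η₀ ∧ ∀ η ∈ Set.Ioc (0 : ℝ) η₀,
    ∃ P₀ : ℕ, ∀ P : ℕ, P₀ ≤ P → M ≤ VV S P η := by
  classical
  -- a large partial sum
  have hex : ∃ T : Finset Nat.Primes, M + 1 ≤ ∑ p ∈ T, ‖S.a p‖ ^ 2 / ((p : ℕ) : ℝ) := by
    by_contra hcon
    push Not at hcon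
    apply S.div
    exact summable_of_sum_le (c := M + 1) (fun p => by positivity) (fun T => (hcon T).le)
  obtain ⟨T, hT⟩ := hex
  obtain ⟨P₀, hP₀⟩ : ∃ P₀ : ℕ, ∀ p ∈ T, (p : ℕ) ≤ P₀ := by
    refine ⟨T.sup fun p => (p : ℕ), fun p hp => ?_⟩
    exact Finset.le_sup (f := fun p : Nat.Primes => (p : ℕ)) hp
  have hcont : Continuous fun η : ℝ => ∑ p ∈ T, ‖S.a p‖ ^ 2 * ((p : ℕ) : ℝ) ^ (-1 - 2 * η) := by
    apply continuous_finsetSum
    intro p _
    have hp0 : ((p : ℕ) : ℝ) ≠ 0 := by exact_mod_cast p.2.ne_zero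
    exact continuous_const.mul ((Real.continuous_const_rpow hp0).comp (by fun_prop))
  have h0 : M < ∑ p ∈ T, ‖S.a p‖ ^ 2 * ((p : ℕ) : ℝ) ^ (-1 - 2 * (0 : ℝ)) := by
    have h1 : ∑ p ∈ T, ‖S.a p‖ ^ 2 * ((p : ℕ) : ℝ) ^ (-1 - 2 * (0 : ℝ)) =
        ∑ p ∈ T, ‖S.a p‖ ^ 2 / ((p : ℕ) : ℝ) := by
      apply Finset.sum_congr rfl
      intro p _
      rw [mul_zero, sub_zero, Real.rpow_neg_one, div_eq_mul_inv]
    rw [h1]; linarith
  have hev := hcont.continuousAt.eventually (lt_mem_nhds h0)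
  obtain ⟨δ, hδ, hball⟩ := Metric.eventually_nhds_iff.1 hev
  refine ⟨δ / 2, by positivity, fun η hη => ⟨P₀, fun P hP => ?_⟩⟩
  have h1 := hball (y := η) (by
    rw [Real.dist_eq, sub_zero, abs_of_pos hη.1]; linarith [hη.2])
  refine h1.le.trans ?_
  unfold VV
  rw [← Finset.sum_image (s := T) (g := fun p : Nat.Primes => (p : ℕ))
    (f := fun p : ℕ => ‖S.a p‖ ^ 2 * (p : ℝ) ^ (-1 - 2 * η))
    (fun a _ b _ hab => Subtype.ext hab)]
  apply Finset.sum_le_sum_of_subset_of_nonneg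
  · intro p hp
    rw [Finset.mem_image] at hp
    obtain ⟨p', hp', rfl⟩ := hp
    rw [Nat.mem_primesBelow]
    exact ⟨by have := hP₀ p' hp'; omega, p'.2⟩
  · intro p _ _
    positivity

end Pool.Agent.G4
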