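import Pool.Agent.Lib_helper44.G4.Defs
import Pool.Agent.Lib_helper82.G4.PS
import Pool.Agent.Lib_helper93.G4.ORTH

/-! G4 block PM1. -/

namespace Pool.Agent.G4

open Complex MeasureTheory Filter Topology

variable {m : ℕ}

theorem PM1_hatw_neg_int {w : ℝ → ℝ} (hw : Continuous w) (hc : HasCompactSupport w) (c : ℂ) :
    Integrable (fun t : ℝ => (w t : ℂ) * cexp (c * t)) := by
  apply Continuous.integrable_of_hasCompactSupport
  · fun_prop
  · have h1 : HasCompactSupport (fun t : ℝ => (w t : ℂ)) := by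
      exact hc.comp_left (g := fun r : ℝ => (r : ℂ)) (by simp)
    exact h1.mul_right

/-- the integral of a prime sum against a weight -/
theorem PM1_int (S : Sys m) {w : ℝ → ℝ} (hw : Continuous w) (hc : HasCompactSupport w)
    (P : ℕ) (η : ℝ) (x : Ix) :
    ∫ t : ℝ, w t * Xs S P η x t =
      (∑ p ∈ Nat.primesBelow (P + 1), S.a p * ev x p *
        ((((p : ℝ) ^ (-(1 / 2 + η)) : ℝ) : ℂ) * hatw w (-Real.log p))).re := by
  have h1 : ∀ p ∈ Nat.primesBelow (P + 1), ∀ t : ℝ,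
      (p : ℂ) ^ (-(1 / 2 + η + t * I : ℂ)) =
        (((p : ℝ) ^ (-(1 / 2 + η)) : ℝ) : ℂ) * cexp (t * ((-Real.log p : ℝ) : ℂ) * I) := by
    intro p hp t
    have hpp := Nat.prime_of_mem_primesBelow hp
    have hp0 : (p : ℂ) ≠ 0 := by exact_mod_cast hpp.ne_zero
    have e : (-(1 / 2 + η + t * I : ℂ)) = ((-(1 / 2 + η) : ℝ) : ℂ) + (-(t * I)) := by
      push_cast; ring
    rw [e, Complex.cpow_add _ _ hp0]
    congr 1
    · rw [Complex.ofReal_cpow (Nat.cast_nonneg p)]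
      push_cast; rfl
    · rw [Complex.cpow_def_of_ne_zero hp0, ← Complex.natCast_log]
      congr 1; push_cast; ring
  have h2 : ∀ t : ℝ, w t * Xs S P η x t = (∑ p ∈ Nat.primesBelow (P + 1), S.a p * ev x p *
      ((((p : ℝ) ^ (-(1 / 2 + η)) : ℝ) : ℂ) *
        ((w t : ℂ) * cexp (t * ((-Real.log p : ℝ) : ℂ) * I)))).re := by
    intro t
    unfold Xs
    rw [← Complex.re_ofReal_mul, Finset.mul_sum]
    congr 1
    apply Finset.sum_congr rfl
    intro p hp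
    rw [h1 p hp t]; ring
  have hI : ∀ p : ℕ, Integrable (fun t : ℝ => (w t : ℂ) * cexp (t * ((-Real.log p : ℝ) : ℂ) * I)) := by
    intro p
    have := PM1_hatw_neg_int hw hc (((-Real.log p : ℝ) : ℂ) * I)
    refine this.congr ?_
    filter_upwards with t
    congr 2; ring
  have hI2 : ∀ p ∈ Nat.primesBelow (P + 1), Integrable (fun t : ℝ => S.a p * ev x p *
      ((((p : ℝ) ^ (-(1 / 2 + η)) : ℝ) : ℂ) *
        ((w t : ℂ) * cexp (t * ((-Real.log p : ℝ) : ℂ) * I)))) := by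
    intro p _
    exact ((hI p).const_mul _).const_mul _
  simp_rw [h2]
  have h3 := integral_re (𝕜 := ℂ) (integrable_finsetSum (Nat.primesBelow (P + 1)) hI2)
  have h4 : ∫ t : ℝ, (∑ p ∈ Nat.primesBelow (P + 1), S.a p * ev x p *
      ((((p : ℝ) ^ (-(1 / 2 + η)) : ℝ) : ℂ) *
        ((w t : ℂ) * cexp (t * ((-Real.log p : ℝ) : ℂ) * I)))) =
      ∑ p ∈ Nat.primesBelow (P + 1), S.a p * ev x p *
        ((((p : ℝ) ^ (-(1 / 2 + η)) : ℝ) : ℂ) * hatw w (-Real.log p)) := by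
    rw [integral_finsetSum _ hI2]
    apply Finset.sum_congr rfl
    intro p _
    rw [integral_const_mul, integral_const_mul]
    rfl
  rw [← h4]
  exact h3

/-- PM1 -/
theorem pm1_pr (S : Sys m) {w : ℝ → ℝ} (hw : Continuous w) (hc : HasCompactSupport w) {C₁ : ℝ}
    (hd : ∀ u, ‖hatw w u‖ ≤ C₁ / (1 + u ^ 2)) : ∃ C : ℝ, 0 ≤ C ∧ ∀ (P : ℕ) (η : ℝ), 0 ≤ η →
      ∃ Q₀ : ℕ, ∀ Q : ℕ, Q₀ ≤ Q →
        ∑ x ∈ pairs S.N Q, (∫ t : ℝ, w t * Xs S P η x t) ^ 2 ≤ C * Q ^ 2 := by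
  classical
  obtain ⟨C, hC0, hC⟩ := prime_sums_pr S
  have hC1 : 0 ≤ C₁ := by
    have := (norm_nonneg _).trans (hd 0)
    simpa using this
  refine ⟨C₁ ^ 2 * C + 1, by positivity, fun P η hη => ?_⟩
  set T := Nat.primesBelow (P + 1) with hT
  have hTp : ∀ i : T, (i : ℕ).Prime := fun i => Nat.prime_of_mem_primesBelow i.2
  set b : T → ℝ := fun i => ‖S.a i‖ * (((i : ℕ) : ℝ) ^ (-(1 / 2 + η)) * (C₁ / (1 + Real.log (i : ℕ) ^ 2)))
    with hb
  have hb0 : ∀ i, 0 ≤ b i := fun i => by positivity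
  obtain ⟨Q₀, hQ₀⟩ := orth_pr (ι := T) S.N b hb0 (Summable.of_finite) (fun i => (i : ℕ)) (fun _ => 1)
    (fun i => (hTp i).pos) (fun _ => one_pos) (fun i j h => Subtype.ext (by simpa using h))
    one_pos
  refine ⟨Q₀, fun Q hQ => ?_⟩
  set β : T → ℂ := fun i => S.a i * ((((((i : ℕ) : ℝ) ^ (-(1 / 2 + η)) : ℝ) : ℂ)) *
    hatw w (-Real.log (i : ℕ))) with hβ
  have hβb : ∀ i, ‖β i‖ ≤ b i := by
    intro i
    simp only [hβ, hb]
    rw [norm_mul, norm_mul, Complex.norm_real, Real.norm_of_nonneg (by positivity)]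
    have h1 := hd (-Real.log (i : ℕ))
    rw [neg_sq] at h1
    gcongr
  have h1 := hQ₀ Q hQ β hβb
  have h2 : ∀ x ∈ pairs S.N Q, (∫ t : ℝ, w t * Xs S P η x t) ^ 2 ≤
      ‖∑' i, β i * ev x (i : ℕ) * starRingEnd ℂ (ev x 1)‖ ^ 2 := by
    intro x _
    rw [PM1_int S hw hc P η x]
    have e : ∑' i : T, β i * ev x (i : ℕ) * starRingEnd ℂ (ev x 1) =
        ∑ p ∈ Nat.primesBelow (P + 1), S.a p * ev x p *
        ((((p : ℝ) ^ (-(1 / 2 + η)) : ℝ) : ℂ) * hatw w (-Real.log p)) := by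
      rw [tsum_fintype, ← hT, ← Finset.sum_coe_sort T]
      apply Finset.sum_congr rfl
      intro i _
      have : ev x 1 = 1 := by unfold ev; simp
      rw [this]
      simp only [hβ, map_one, mul_one]
      ring
    rw [e, ← sq_abs]
    gcongr
    exact Complex.abs_re_le_norm _
  refine (Finset.sum_le_sum h2).trans (h1.trans ?_)
  apply mul_le_mul_of_nonneg_right _ (by positivity)
  have h3 : ∑' i : T, b i ^ 2 ≤ C₁ ^ 2 * C := by
    rw [tsum_fintype]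
    have h4 : ∀ i ∈ (Finset.univ : Finset T), b i ^ 2 ≤
        C₁ ^ 2 * (‖S.a (i : ℕ)‖ ^ 2 / (i : ℕ) / (1 + (Real.log (i : ℕ) - 0) ^ 2)) := by
      intro i _
      have hp0 : (0 : ℝ) < (i : ℕ) := by exact_mod_cast (hTp i).pos
      have hp1 : (1 : ℝ) ≤ (i : ℕ) := by exact_mod_cast (hTp i).one_lt.le
      have h5 : (((i : ℕ) : ℝ) ^ (-(1 / 2 + η))) ^ 2 ≤ ((i : ℕ) : ℝ)⁻¹ := by
        rw [← Real.rpow_natCast, ← Real.rpow_mul hp0.le, ← Real.rpow_neg_one]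
        apply Real.rpow_le_rpow_of_exponent_le hp1
        push_cast; linarith
      have h6 : (1 / (1 + Real.log (i : ℕ) ^ 2)) ^ 2 ≤ 1 / (1 + Real.log (i : ℕ) ^ 2) := by
        have h7 : (1 : ℝ) / (1 + Real.log (i : ℕ) ^ 2) ≤ 1 := by
          rw [div_le_one (by positivity)]; nlinarith [sq_nonneg (Real.log (i : ℕ))]
        have h8 : (0 : ℝ) ≤ 1 / (1 + Real.log (i : ℕ) ^ 2) := by positivity
        nlinarith
      simp only [hb]
      rw [sub_zero]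
      calc (‖S.a (i : ℕ)‖ * (((i : ℕ) : ℝ) ^ (-(1 / 2 + η)) * (C₁ / (1 + Real.log (i : ℕ) ^ 2)))) ^ 2
          = C₁ ^ 2 * (‖S.a (i : ℕ)‖ ^ 2 * ((((i : ℕ) : ℝ) ^ (-(1 / 2 + η))) ^ 2 *
            (1 / (1 + Real.log (i : ℕ) ^ 2)) ^ 2)) := by ring
        _ ≤ C₁ ^ 2 * (‖S.a (i : ℕ)‖ ^ 2 * ((((i : ℕ) : ℝ)⁻¹) *
            (1 / (1 + Real.log (i : ℕ) ^ 2)))) := by gcongr
        _ = _ := by simp only [div_eq_mul_inv]; ring
    refine (Finset.sum_le_sum h4).trans ?_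
    rw [← Finset.mul_sum]
    apply mul_le_mul_of_nonneg_left _ (by positivity)
    rw [Finset.sum_coe_sort T (fun p : ℕ => ‖S.a p‖ ^ 2 / p / (1 + (Real.log p - 0) ^ 2))]
    exact (hC P).2.1 0
  linarith

end Pool.Agent.G4
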