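import Pool.Agent.Lib_helper44.G4.Defs
import Pool.Agent.Lib_helper82.G4.EUL

/-! G4 block SMD: transform of the smooth part. -/

namespace Pool.Agent.G4

open Complex MeasureTheory Filter Topology

variable {m : ℕ}

/-- Integrability of a series of integrable functions. -/
theorem SMD_integrable_tsum {α J E : Type*} [MeasurableSpace α] {μ : Measure α} [Countable J]
    [NormedAddCommGroup E] [NormedSpace ℝ E] [CompleteSpace E]
    {F : J → α → E} (hF : ∀ j, Integrable (F j) μ) (hs : Summable fun j => ∫ x, ‖F j x‖ ∂μ) :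
    Integrable (fun x => ∑' j, F j x) μ := by
  have h1 : ∑' j, ∫⁻ x, ‖F j x‖ₑ ∂μ ≠ ⊤ := by
    have (j : J) : ∫⁻ x, ‖F j x‖ₑ ∂μ = ENNReal.ofReal (∫ x, ‖F j x‖ ∂μ) := by
      rw [ofReal_integral_norm_eq_lintegral_enorm (hF j)]
    simp_rw [this]
    exact hs.tsum_ofReal_ne_top
  have h2 : ∫⁻ x, ∑' j, ‖F j x‖ₑ ∂μ ≠ ⊤ := by
    rw [lintegral_tsum (fun j => (hF j).1.enorm)]
    exact h1
  have h3 : ∀ᵐ x ∂μ, Summable (fun j => F j x) := by
    have := ae_lt_top' (AEMeasurable.ennreal_tsum (fun j => (hF j).1.enorm)) h2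
    filter_upwards [this] with x hx
    have : Summable (fun j => ‖F j x‖) := by
      have h4 := ENNReal.tsum_coe_ne_top_iff_summable.1
        (show ∑' j, ((‖F j x‖₊ : NNReal) : ENNReal) ≠ ⊤ from hx.ne)
      exact NNReal.summable_coe.2 h4
    exact this.of_norm
  refine ⟨aestronglyMeasurable_of_tendsto_ae (atTop : Filter (Finset J))
    (f := fun s x => ∑ j ∈ s, F j x) (fun s => ?_) ?_, ?_⟩
  · exact Finset.aestronglyMeasurable_fun_sum s (fun j _ => (hF j).1)
  · filter_upwards [h3] with x hx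
    exact hx.hasSum
  · refine lt_of_le_of_lt (lintegral_mono (fun x => enorm_tsum_le_tsum_enorm)) h2.lt_top

theorem SMD_ker_int {κ : ℝ} {K : ℝ → ℂ} (hK : IsKer κ K) {z : ℂ} (hz : -κ < z.re) :
    Integrable (fun v : ℝ => K v * cexp (z * v)) := by
  have hcont : Continuous (fun v : ℝ => K v * cexp (z * v)) := by
    have := hK.cont
    fun_prop
  obtain ⟨C₁, h1⟩ := hK.le (z.re + 1) (by linarith)
  obtain ⟨C₂, h2⟩ := hK.le ((z.re - κ) / 2) (by linarith)
  have hn : ∀ v : ℝ, ‖K v * cexp (z * v)‖ = ‖K v‖ * Real.exp (z.re * v) := by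
    intro v
    rw [norm_mul, Complex.norm_exp]
    congr 2
    simp
  rw [← integrableOn_univ, ← Set.Iic_union_Ioi (a := (0 : ℝ))]
  apply IntegrableOn.union
  · have hI : IntegrableOn (fun v : ℝ => C₂ * Real.exp (((z.re + κ) / 2) * v)) (Set.Iic 0) :=
      (integrableOn_exp_mul_Iic (by linarith) 0).const_mul C₂
    refine Integrable.mono' hI hcont.aestronglyMeasurable ?_
    filter_upwards with v
    rw [hn]
    calc ‖K v‖ * Real.exp (z.re * v) ≤ (C₂ * Real.exp (-((z.re - κ) / 2) * v)) *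
          Real.exp (z.re * v) := by gcongr; exact h2 v
      _ = C₂ * Real.exp (((z.re + κ) / 2) * v) := by
          rw [mul_assoc, ← Real.exp_add]; congr 2; ring
  · have hI : IntegrableOn (fun v : ℝ => C₁ * Real.exp ((-1) * v)) (Set.Ioi 0) :=
      (integrableOn_exp_mul_Ioi (by norm_num) 0).const_mul C₁
    refine Integrable.mono' hI hcont.aestronglyMeasurable ?_
    filter_upwards with v
    rw [hn]
    calc ‖K v‖ * Real.exp (z.re * v) ≤ (C₁ * Real.exp (-(z.re + 1) * v)) *
          Real.exp (z.re * v) := by gcongr; exact h1 v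
      _ = C₁ * Real.exp ((-1) * v) := by
          rw [mul_assoc, ← Real.exp_add]; congr 2; ring

theorem SMD_smo_zero (P : ℕ) : ¬ smo P 0 := by
  intro h
  obtain ⟨p, hp, hpp⟩ := Nat.exists_infinite_primes (P + 1)
  have := h p hpp (dvd_zero p)
  omega

theorem SMD_exp_log {n : ℕ} (hn : n ≠ 0) (z : ℂ) : cexp (-(z * (Real.log n : ℝ))) = (n : ℂ) ^ (-z) := by
  rw [Complex.cpow_def_of_ne_zero (by exact_mod_cast hn), ← Complex.natCast_log]
  congr 1; push_cast; ring

/-- SMD: transform of the smooth part -/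
theorem smooth_mellin_pr {S : Sys m} (k : Kers S) (P : ℕ) (x : Ix) {z : ℂ} (hz : 0 ≤ z.re) :
    (∃ C : ℝ, ∀ (y : Ix) (u : ℝ), ‖D (fun n => open Classical in if smo P n then S.a n else 0)
      (k.K (par y.2)) y u‖ ≤ C) ∧
    Integrable (fun u : ℝ => D (fun n => open Classical in if smo P n then S.a n else 0)
      (k.K (par x.2)) x u * cexp (z * u)) ∧
    ∫ u : ℝ, D (fun n => open Classical in if smo P n then S.a n else 0)
      (k.K (par x.2)) x u * cexp (z * u) = S.gam (par x.2) (1 / 2 + z) * LP S P x (1 / 2 + z) := by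
  classical
  set b : ℕ → ℂ := fun n => if smo P n then S.a n else 0 with hb
  have hb0 : b 0 = 0 := by simp only [hb]; rw [if_neg (SMD_smo_zero P)]
  have hsum : Summable fun n : ℕ => ‖b n‖ * (√(n : ℝ))⁻¹ := by
    refine (EUL_real S P).congr ?_
    intro n
    simp only [hb]
    by_cases hn : smo P n
    · rw [if_pos hn, if_pos hn, Real.sqrt_eq_rpow, Real.rpow_neg (Nat.cast_nonneg n)]
    · rw [if_neg hn, if_neg hn]; simp
  have hκ := k.κ_pos
  refine ⟨?_, ?_⟩
  · have hM : ∀ δ : Fin 2, ∃ C : ℝ, ∀ u : ℝ, ‖k.K δ u‖ ≤ C := by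
      intro δ
      obtain ⟨C, hC⟩ := (k.isKer δ).le 0 (by linarith)
      exact ⟨C, fun u => by simpa using hC u⟩
    choose C hC using hM
    have hC0 : ∀ δ, 0 ≤ C δ := fun δ => (norm_nonneg _).trans (hC δ 0)
    refine ⟨(C 0 + C 1) * ∑' n : ℕ, ‖b n‖ * (√(n : ℝ))⁻¹, ?_⟩
    intro y u
    have hCy : ∀ v, ‖k.K (par y.2) v‖ ≤ C 0 + C 1 := by
      intro v
      have h1 := hC (par y.2) v
      have h2 : C (par y.2) ≤ C 0 + C 1 := by
        have h3 : par y.2 = 0 ∨ par y.2 = 1 := by
          generalize par y.2 = δ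
          fin_cases δ
          · left; rfl
          · right; rfl
        rcases h3 with h3 | h3
        · rw [h3]; linarith [hC0 1]
        · rw [h3]; linarith [hC0 0]
      linarith
    have hle : ∀ n : ℕ, ‖b n * ev y n * (((√(n : ℝ))⁻¹ : ℝ) : ℂ) * k.K (par y.2) (u + Real.log n)‖ ≤
        (C 0 + C 1) * (‖b n‖ * (√(n : ℝ))⁻¹) := by
      intro n
      rw [norm_mul, norm_mul, norm_mul, Complex.norm_real, Real.norm_of_nonneg (by positivity)]
      have h1 := EUL_ev_le y n
      have h2 := hCy (u + Real.log n)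
      calc ‖b n‖ * ‖ev y n‖ * (√(n : ℝ))⁻¹ * ‖k.K (par y.2) (u + Real.log n)‖
          ≤ ‖b n‖ * 1 * (√(n : ℝ))⁻¹ * (C 0 + C 1) := by gcongr
        _ = _ := by ring
    have hs2 : Summable fun n : ℕ => (C 0 + C 1) * (‖b n‖ * (√(n : ℝ))⁻¹) := hsum.mul_left _
    unfold D
    rw [← tsum_mul_left]
    exact tsum_of_norm_bounded hs2.hasSum hle
  · set K := k.K (par x.2) with hKdef
    have hKer : IsKer k.κ K := k.isKer _
    have hKI : Integrable (fun v : ℝ => K v * cexp (z * v)) := SMD_ker_int hKer (by linarith)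
    let F : ℕ → ℝ → ℂ := fun n u =>
      b n * ev x n * (((√(n : ℝ))⁻¹ : ℝ) : ℂ) * K (u + Real.log n) * cexp (z * u)
    have hFeq : ∀ n : ℕ, n ≠ 0 → ∀ u : ℝ, F n u = (b n * ev x n * (((√(n : ℝ))⁻¹ : ℝ) : ℂ) *
        (n : ℂ) ^ (-z)) * (K (u + Real.log n) * cexp (z * ((u + Real.log n : ℝ) : ℂ))) := by
      intro n hn u
      change b n * ev x n * (((√(n : ℝ))⁻¹ : ℝ) : ℂ) * K (u + Real.log n) * cexp (z * u) = _
      have h1 : cexp (z * u) = (n : ℂ) ^ (-z) * cexp (z * ((u + Real.log n : ℝ) : ℂ)) := by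
        rw [← SMD_exp_log hn, ← Complex.exp_add]
        congr 1; push_cast; ring
      rw [h1]; ring
    have hF0 : ∀ u, F 0 u = 0 := by
      intro u
      change b 0 * ev x 0 * _ * _ * _ = 0
      rw [hb0]; ring
    have hFi : ∀ n, Integrable (F n) := by
      intro n
      by_cases hn : n = 0
      · subst hn
        have : F 0 = fun _ => 0 := funext hF0
        rw [this]; exact integrable_zero _ _ _
      · have h1 : Integrable (fun u : ℝ => K (u + Real.log n) * cexp (z * ((u + Real.log n : ℝ) : ℂ))) :=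
          hKI.comp_add_right (Real.log n)
        have h2 : F n = fun u => (b n * ev x n * (((√(n : ℝ))⁻¹ : ℝ) : ℂ) * (n : ℂ) ^ (-z)) *
            (K (u + Real.log n) * cexp (z * ((u + Real.log n : ℝ) : ℂ))) := funext (hFeq n hn)
        rw [h2]; exact h1.const_mul _
    have hFint : ∀ n, ∫ u, F n u = S.gam (par x.2) (1 / 2 + z) *
        (if smo P n then S.a n * ev x n * (n : ℂ) ^ (-(1 / 2 + z)) else 0) := by
      intro n
      by_cases hn : n = 0
      · subst hn
        simp only [hF0, integral_zero]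
        rw [if_neg (SMD_smo_zero P), mul_zero]
      · have h2 : F n = fun u => (b n * ev x n * (((√(n : ℝ))⁻¹ : ℝ) : ℂ) * (n : ℂ) ^ (-z)) *
            (K (u + Real.log n) * cexp (z * ((u + Real.log n : ℝ) : ℂ))) := funext (hFeq n hn)
        rw [h2, integral_const_mul,
          integral_add_right_eq_self (fun v : ℝ => K v * cexp (z * (v : ℂ))) (Real.log n),
          k.mellin (par x.2) z (by linarith)]
        simp only [hb]
        by_cases hs : smo P n
        · rw [if_pos hs, if_pos hs]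
          have h3 : (n : ℂ) ^ (-(1 / 2 + z)) = (((√(n : ℝ))⁻¹ : ℝ) : ℂ) * (n : ℂ) ^ (-z) := by
            have hn' : (n : ℂ) ≠ 0 := by exact_mod_cast hn
            rw [neg_add, Complex.cpow_add _ _ hn']
            congr 1
            rw [Complex.ofReal_inv, Real.sqrt_eq_rpow, Complex.ofReal_cpow (Nat.cast_nonneg n),
              Complex.cpow_neg]
            push_cast
            rfl
          rw [h3]; ring
        · rw [if_neg hs, if_neg hs]; ring
    have hFnorm : Summable fun n => ∫ u, ‖F n u‖ := by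
      refine Summable.of_nonneg_of_le (fun n => integral_nonneg fun u => norm_nonneg _) ?_
        (hsum.mul_right (∫ v : ℝ, ‖K v * cexp (z * v)‖))
      intro n
      by_cases hn : n = 0
      · subst hn
        simp only [hF0, norm_zero, integral_zero]
        exact mul_nonneg (by positivity) (integral_nonneg fun u => norm_nonneg _)
      · have h2 : (fun u => ‖F n u‖) = fun u => ‖(b n * ev x n * (((√(n : ℝ))⁻¹ : ℝ) : ℂ) *
            (n : ℂ) ^ (-z))‖ * ‖(K (u + Real.log n) * cexp (z * ((u + Real.log n : ℝ) : ℂ)))‖ := by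
          funext u; rw [hFeq n hn, norm_mul]
        rw [h2, integral_const_mul,
          integral_add_right_eq_self (fun v : ℝ => ‖K v * cexp (z * (v : ℂ))‖) (Real.log n)]
        apply mul_le_mul_of_nonneg_right _ (integral_nonneg fun u => norm_nonneg _)
        rw [norm_mul, norm_mul, norm_mul, Complex.norm_real, Real.norm_of_nonneg (by positivity)]
        have h3 : ‖(n : ℂ) ^ (-z)‖ ≤ 1 := by
          rw [Complex.norm_natCast_cpow_of_pos (Nat.pos_of_ne_zero hn), Complex.neg_re]
          exact Real.rpow_le_one_of_one_le_of_nonpos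
            (Nat.one_le_cast.2 (Nat.one_le_iff_ne_zero.2 hn)) (by linarith)
        have h4 := EUL_ev_le x n
        calc ‖b n‖ * ‖ev x n‖ * (√(n : ℝ))⁻¹ * ‖(n : ℂ) ^ (-z)‖ ≤ ‖b n‖ * 1 * (√(n : ℝ))⁻¹ * 1 := by
              gcongr
          _ = _ := by ring
    have hDF : ∀ u : ℝ, D b K x u * cexp (z * u) = ∑' n, F n u := by
      intro u
      unfold D
      rw [← tsum_mul_right]
    refine ⟨?_, ?_⟩
    · refine (SMD_integrable_tsum hFi hFnorm).congr ?_
      filter_upwards with u
      exact (hDF u).symm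
    · have h1 := hasSum_integral_of_summable_integral_norm hFi hFnorm
      have h2 : HasSum (fun n => ∫ u, F n u)
          (S.gam (par x.2) (1 / 2 + z) * LP S P x (1 / 2 + z)) := by
        simp_rw [hFint]
        exact (EUL_cplx S P x (s := 1 / 2 + z) (by simp [hz])).mul_left _
      rw [← h2.unique h1 |>.symm]
      apply integral_congr_ae
      filter_upwards with u
      exact hDF u

end Pool.Agent.G4
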